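import Mathlib

set_option autoImplicit false

namespace Pool.Agent.Results.MP_8ae111_al.JordanTwo

/-- The derived series of a subring, computed inside the ring:
`derived S 0 = S` and `derived S (k+1)` is the additive subgroup generated by all products of two
elements of `derived S k`. -/
def derived {A : Type} [NonUnitalNonAssocRing A] (S : AddSubgroup A) : ℕ → AddSubgroup A
  | 0 => S
  | k + 1 => AddSubgroup.closure {z : A | ∃ x ∈ derived S k, ∃ y ∈ derived S k, z = x * y}

/-- The fixed subring of a group of ring automorphisms (as an additive subgroup; it is closed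
under multiplication). -/
def fixed {A : Type} [NonUnitalNonAssocRing A] (G : Subgroup (RingAut A)) : AddSubgroup A where
  carrier := {a : A | ∀ g ∈ G, g a = a}
  zero_mem' := by intro g _; exact map_zero g
  add_mem' := by
    intro a b ha hb g hg
    rw [map_add, ha g hg, hb g hg]
  neg_mem' := by
    intro a ha g hg
    rw [map_neg, ha g hg]

/-- The carrier of the example: functions on the group with values in the field with two
elements. The element `h` is a parameter of the multiplication. -/
def V (G : Type) (_h : G) : Type := G → ZMod 2

instance (G : Type) (h : G) : AddCommGroup (V G h) := inferInstanceAs (AddCommGroup (G → ZMod 2))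

theorem add_app {G : Type} {h : G} (x y : V G h) (g : G) : (x + y) g = x g + y g := rfl

theorem zero_app {G : Type} {h : G} (g : G) : (0 : V G h) g = 0 := rfl

variable {G : Type} [Group G] {h : G}

instance : Mul (V G h) := ⟨fun x y g => x g * y (g * h) + x (g * h) * y g⟩

theorem mul_app (x y : V G h) (g : G) :
    (x * y) g = x g * y (g * h) + x (g * h) * y g := rfl

instance : NonUnitalNonAssocRing (V G h) :=
  { (inferInstance : AddCommGroup (V G h)), (inferInstance : Mul (V G h)) with
    left_distrib := by
      intro a b c
      funext g
      simp only [mul_app, add_app]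
      ring
    right_distrib := by
      intro a b c
      funext g
      simp only [mul_app, add_app]
      ring
    zero_mul := by
      intro a
      funext g
      simp only [mul_app, zero_app]
      ring
    mul_zero := by
      intro a
      funext g
      simp only [mul_app, zero_app]
      ring }

/-- Left translation. -/
def transl (a : G) : RingAut (V G h) where
  toFun := fun x g => x (a⁻¹ * g)
  invFun := fun x g => x (a * g)
  left_inv := by
    intro x
    funext g
    show x (a⁻¹ * (a * g)) = x g
    rw [inv_mul_cancel_left]
  right_inv := by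
    intro x
    funext g
    show x (a * (a⁻¹ * g)) = x g
    rw [mul_inv_cancel_left]
  map_mul' := by
    intro x y
    funext g
    show (x * y) (a⁻¹ * g) = _
    rw [mul_app]
    show _ = x (a⁻¹ * g) * y (a⁻¹ * (g * h)) + x (a⁻¹ * (g * h)) * y (a⁻¹ * g)
    rw [mul_assoc]
  map_add' := by
    intro x y
    rfl

theorem transl_apply (a : G) (x : V G h) (g : G) : transl a x g = x (a⁻¹ * g) := rfl

/-- The action of the group by left translations. -/
def act : G →* RingAut (V G h) where
  toFun := transl
  map_one' := by
    apply RingEquiv.ext
    intro x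
    funext g
    rw [transl_apply, inv_one, one_mul]
    rfl
  map_mul' := by
    intro a b
    apply RingEquiv.ext
    intro x
    funext g
    show x ((a * b)⁻¹ * g) = x (b⁻¹ * (a⁻¹ * g))
    rw [mul_inv_rev, mul_assoc]

theorem two_mul_self (t : ZMod 2) : t + t = 0 := CharTwo.add_self_eq_zero t

theorem sq_zero (x : V G h) : x * x = 0 := by
  funext g
  rw [mul_app, zero_app, mul_comm (x (g * h)) (x g)]
  exact two_mul_self _

open Classical in
/-- Basis vectors. -/
noncomputable def e (a : G) : V G h := fun g => if g = a then 1 else 0

open Classical in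
omit [Group G] in
theorem e_app (a g : G) : (e a : V G h) g = if g = a then 1 else 0 := rfl

theorem e_mul (h2 : h * h ≠ 1) (h1 : h ≠ 1) (a : G) :
    (e a : V G h) * e (a * h) = e a := by
  classical
  funext g
  rw [mul_app, e_app, e_app, e_app, e_app]
  by_cases hg : g = a
  · subst hg
    have h3 : ¬ (g * h = g) := fun h4 => h1 (by simpa using h4)
    simp [h3]
  · by_cases hg2 : g * h = a
    · have h5 : ¬ (g = a * h) := by
        intro h6
        apply h2
        have h7 : a * h * h = a := by rw [← h6]; exact hg2
        have h8 : a * (h * h) = a * 1 := by rw [← mul_assoc, h7, mul_one]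
        exact mul_left_cancel h8
      simp [hg, h5]
    · simp [hg, hg2]

theorem derived_top [Finite G] (h2 : h * h ≠ 1) (h1 : h ≠ 1) (n : ℕ) :
    derived (⊤ : AddSubgroup (V G h)) n = ⊤ := by
  classical
  induction n with
  | zero => rfl
  | succ n ih =>
    have := Fintype.ofFinite G
    rw [eq_top_iff]
    intro v _
    have hv : v = ∑ a : G, (if v a = 0 then (0 : V G h) else e a) := by
      funext g
      have hs : ∀ s : Finset G, (∑ a ∈ s, (if v a = 0 then (0 : V G h) else e a)) g =
          ∑ a ∈ s, (if v a = 0 then (0 : V G h) else e a) g := by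
        intro s
        induction s using Finset.induction_on with
        | empty => rfl
        | insert b s hb ihs =>
          rw [Finset.sum_insert hb, Finset.sum_insert hb, add_app, ihs]
      rw [hs, Finset.sum_eq_single g]
      · by_cases hz : v g = 0
        · rw [if_pos hz, hz, zero_app]
        · rw [if_neg hz, e_app, if_pos rfl]
          have : ∀ t : ZMod 2, t ≠ 0 → t = 1 := by decide
          exact this _ hz
      · intro b _ hb
        by_cases hz : v b = 0
        · rw [if_pos hz, zero_app]
        · rw [if_neg hz, e_app, if_neg (Ne.symm hb)]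
      · intro hg
        exact absurd (Finset.mem_univ g) hg
    rw [hv]
    apply AddSubgroup.sum_mem
    intro a _
    by_cases hz : v a = 0
    · rw [if_pos hz]
      exact AddSubgroup.zero_mem _
    · rw [if_neg hz]
      apply AddSubgroup.subset_closure
      refine ⟨e a, ?_, e (a * h), ?_, (e_mul h2 h1 a).symm⟩
      · rw [ih]; exact AddSubgroup.mem_top _
      · rw [ih]; exact AddSubgroup.mem_top _

/-- For every nontrivial finite group `G` of odd order there are a commutative ring `A` satisfying
the Jordan identity and a group of automorphisms of `A` isomorphic to `G` such that `A` has no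
`|G|`-torsion, the fixed subring has zero multiplication, and `A` is not solvable (even `A A = A`
and `A ≠ 0`). -/
theorem result (G : Type) [Group G] [Finite G] [Nontrivial G] (hodd : Odd (Nat.card G)) :
    ∃ (A : Type) (_ : NonUnitalNonAssocRing A) (K : Subgroup (RingAut A)),
      Nonempty (G ≃* K) ∧
      (∀ x y : A, x * y = y * x) ∧
      (∀ x y : A, ((x * x) * y) * x = (x * x) * (y * x)) ∧
      (∀ a : A, Nat.card K • a = 0 → a = 0) ∧
      derived (fixed K) 1 = ⊥ ∧
      (∀ n : ℕ, derived (⊤ : AddSubgroup A) n = ⊤) ∧ Nontrivial A := by
  classical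
  obtain ⟨h, h1⟩ := exists_ne (1 : G)
  have h2 : h * h ≠ 1 := by
    intro h3
    have h4 : orderOf h = 2 := orderOf_eq_prime (by rw [pow_two]; exact h3) h1
    have h5 : 2 ∣ Nat.card G := by rw [← h4]; exact orderOf_dvd_natCard h
    exact (Nat.not_even_iff_odd.mpr hodd) (even_iff_two_dvd.mpr h5)
  have hinj : Function.Injective (act : G →* RingAut (V G h)) := by
    intro a b hab
    have h3 : transl a (e 1 : V G h) = transl b (e 1) := by
      have := congrArg (fun f : RingAut (V G h) => f (e 1)) hab
      exact this
    have h4 := congrFun h3 a
    rw [transl_apply, transl_apply, e_app, e_app, inv_mul_cancel, if_pos rfl] at h4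
    by_contra hne
    have h5 : ¬ (b⁻¹ * a = 1) := by
      intro h6
      exact hne (inv_mul_eq_one.mp h6).symm
    rw [if_neg h5] at h4
    exact one_ne_zero h4
  have eqv : G ≃* (act : G →* RingAut (V G h)).range := MonoidHom.ofInjective hinj
  refine ⟨V G h, inferInstance, (act : G →* RingAut (V G h)).range, ⟨eqv⟩, ?_, ?_, ?_, ?_, ?_, ?_⟩
  · intro x y
    funext g
    rw [mul_app, mul_app]
    ring
  · intro x y
    rw [sq_zero]
    simp only [zero_mul]
  · intro a ha
    have hc : Nat.card (act : G →* RingAut (V G h)).range = Nat.card G :=
      (Nat.card_congr eqv.toEquiv).symm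
    rw [hc] at ha
    obtain ⟨k, hk⟩ := hodd
    have h2a : ∀ b : V G h, b + b = 0 := by
      intro b
      funext g
      rw [add_app, zero_app]
      exact two_mul_self _
    rw [hk, add_nsmul, one_nsmul, mul_comm 2 k, mul_nsmul, two_nsmul, h2a, zero_add] at ha
    exact ha
  · rw [eq_bot_iff]
    show AddSubgroup.closure _ ≤ _
    rw [AddSubgroup.closure_le]
    rintro z ⟨x, hx, y, hy, rfl⟩
    have hconst : ∀ x : V G h, x ∈ fixed (act : G →* RingAut (V G h)).range →
        ∀ g : G, x g = x 1 := by
      intro x hx g
      have h3 : transl g x = x := hx (act g) ⟨g, rfl⟩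
      have h4 := congrFun h3 g
      rw [transl_apply, inv_mul_cancel] at h4
      exact h4.symm
    have hx' := hconst x hx
    have hy' := hconst y hy
    show x * y = 0
    funext g
    rw [mul_app, zero_app, hx' g, hx' (g * h), hy' g, hy' (g * h)]
    exact two_mul_self _
  · exact derived_top h2 h1
  · refine ⟨⟨e 1, 0, ?_⟩⟩
    intro h3
    have h4 := congrFun h3 1
    rw [e_app, if_pos rfl, zero_app] at h4
    exact one_ne_zero h4

end Pool.Agent.Results.MP_8ae111_al.JordanTwo
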